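import Pool.Agent.helper78.HFN.Spec

/-!
# Row hfn:SEC: sections on a curve
-/

set_option autoImplicit false

open Polynomial Module

namespace Pool.Agent.HFN

noncomputable section

/-- evaluation at `z` as a linear map -/
def SEC_ev (z : ℂ × ℂ) : AA →ₗ[ℂ] ℂ where
  toFun f := ev z f
  map_add' f g := ev_add z f g
  map_smul' c f := by rw [ev_smul]; rfl

theorem SEC (hBZT : BZT_stmt) (hINF : INF_stmt) : SEC_stmt := by
  intro E hE i j W hW S2 S1 hdis h2 h1 hWz
  set k : ℕ := ip i j E + 1 - (2 * S2.card + S1.card) with hk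
  have hinf : ({z : ℂ × ℂ | ev z E = 0} \ ((S1 ∪ S2 : Finset (ℂ × ℂ)) : Set (ℂ × ℂ))).Infinite :=
    (hINF E hE).sdiff (Finset.finite_toSet _)
  obtain ⟨P, hPsub, hPcard⟩ := hinf.exists_subset_card_eq k
  have hP0 : ∀ z ∈ P, ev z E = 0 := fun z hz => (hPsub hz).1
  have hPS : ∀ z ∈ P, z ∉ S1 ∧ z ∉ S2 := by
    intro z hz
    have h := (hPsub hz).2
    rw [Finset.mem_coe, Finset.mem_union, not_or] at h
    exact h
  have : FiniteDimensional ℂ W := Submodule.finiteDimensional_of_le hW
  have : FiniteDimensional ℂ (W ⊓ (Ideal.span {E}).restrictScalars ℂ : Submodule ℂ AA) :=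
    Submodule.finiteDimensional_of_le (inf_le_left : W ⊓ (Ideal.span {E}).restrictScalars ℂ ≤ W)
  let φ : W →ₗ[ℂ] (P → ℂ) := (LinearMap.pi fun z : P => SEC_ev (z : ℂ × ℂ)).domRestrict W
  have hφ : ∀ (f : W) (z : P), φ f z = ev (z : ℂ × ℂ) (f : AA) := fun f z => rfl
  have hrn := LinearMap.finrank_range_add_finrank_ker (K := ℂ) (V := W) (V₂ := P → ℂ) φ
  have hr : finrank ℂ (LinearMap.range φ) ≤ k := by
    have h := Submodule.finrank_le (LinearMap.range φ)
    rw [finrank_fintype_fun_eq_card, Fintype.card_coe, hPcard] at h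
    exact h
  have hker : finrank ℂ (LinearMap.ker φ) ≤
      finrank ℂ (W ⊓ (Ideal.span {E}).restrictScalars ℂ : Submodule ℂ AA) := by
    rw [← Submodule.finrank_map_subtype_eq W (LinearMap.ker φ)]
    apply Submodule.finrank_mono
    rintro _ ⟨f, hf, rfl⟩
    refine ⟨f.2, ?_⟩
    show (f : AA) ∈ Ideal.span {E}
    rw [Ideal.mem_span_singleton]
    by_contra hnd
    have hPf : ∀ z ∈ P, ev z (f : AA) = 0 := by
      intro z hz
      have h := congrFun (LinearMap.mem_ker.1 hf) (⟨z, hz⟩ : P)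
      rw [hφ] at h
      exact h
    have hd : Disjoint S2 (S1 ∪ P) := by
      rw [Finset.disjoint_union_right]
      refine ⟨hdis, ?_⟩
      rw [Finset.disjoint_left]
      intro z hz2 hzP
      exact (hPS z hzP).2 hz2
    have hd1 : Disjoint S1 P := by
      rw [Finset.disjoint_left]
      intro z hz1 hzP
      exact (hPS z hzP).1 hz1
    have hW' := hWz f f.2
    have hb := hBZT E f hE hnd i j (hW f.2) S2 (S1 ∪ P) hd
      (fun z hz => ⟨h2 z hz, hW'.1 z hz⟩)
      (fun z hz => by
        rcases Finset.mem_union.1 hz with h | h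
        · exact ⟨h1 z h, hW'.2 z h⟩
        · exact ⟨hP0 z h, hPf z h⟩)
    rw [Finset.card_union_of_disjoint hd1, hPcard] at hb
    omega
  omega

end

end Pool.Agent.HFN
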